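import Pool.Agent.W845.GL.Stm

/-! # GL: row sums -/

set_option autoImplicit false

namespace Pool.Agent.W32.GL

open Finset
open Pool.Agent.W845.GL

theorem sd : S_SD := by
  intro i x
  have h1 : ∑ y : Fin i → Bool, KK i x y = ∏ j : Fin i, ∑ b : Bool, ff j (x j) b := by
    rw [Finset.prod_univ_sum]
    simp only [Fintype.piFinset_univ]
    rfl
  have h2 : (2 : ℝ) ^ i = ∏ _j : Fin i, (2 : ℝ) := by
    rw [Finset.prod_const, Finset.card_univ, Fintype.card_fin]
  rw [h1, h2, ← Finset.prod_div_distrib]
  unfold DD
  refine Finset.prod_congr rfl fun j _ => ?_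
  rw [Fintype.sum_bool]
  unfold ff sg
  cases x j
  · simp only [Bool.false_eq_true, if_false, if_true]
    ring
  · simp only [Bool.false_eq_true, if_false, if_true]
    ring

end Pool.Agent.W32.GL
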